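import Pool.Agent.N145.PC.Dich
import Pool.Agent.TH466.QG.Top
import Pool.Agent.W619.Y.Parts

/-!
# Non-vanishing for varieties dominated by products of curves

Let `V = C 0 × ... × C n` be a product of `n + 1` smooth projective curves over `ℂ`. Let `γ i` be the
gonality of `C i` (or a smaller number): every nonconstant rational function on `C i` has degree at
least `γ i`.

Let `V ⇢ W` be a dominant rational map of finite degree to any projective variety `W`. It need not be
related to the curves. Let `W_s` be the image of `V` in `W × C 0 × ... × C (s - 1)`, and let `d s i`
be the degree over `W_s` of the image of `V` in `W_s × C i`. Then `W_0 = W`, and `d s i` is at most the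
number `d 0 i ≤ deg(V ⇢ W)` of different points of `C i` below a general fibre of `V ⇢ W`.

Suppose that for some `s` (for example `s = 0`) `2 d i i < γ i` for all `i < s` and that for all
`i ≠ j`, `i, j ≥ s`,

`2 d s i < γ i`, or `2 d s j < γ j`, or `2 deg(V ⇢ W_s) ≤ γ i + γ j - 3`.

Then `W` is uniruled or `κ(W) ≥ dim W - 1`.

In particular this holds if `2 deg(V ⇢ W) ≤ γ i + γ j - 3` for all `i ≠ j`, and it holds if
`2 d i i < γ i` for `i < n`; here there is no condition on the curve `C n`, which may have any genus.
The result is optimal: for a quotient `W'` of a product of curves of large gonality, `W = W' × C n` is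
uniruled if `C n` is rational, `κ(W) = dim W - 1` if `C n` is elliptic, and `κ(W) = dim W` otherwise.

The canonical divisor of a uniruled variety is not pseudo-effective, and `κ(W) = -∞`. So for all
projective manifolds `X` which are birational to such an image `W`, `K_X` is pseudo-effective if and
only if it is ℚ-effective, and then `κ(X) ≥ dim X - 1`.

Proof. Let `ω i` be regular differentials on the `C i`. The traces on `W` of the products of their
pullbacks are regular. If all of them vanish then `W` is uniruled, by the arguments of
`MP_e06174_ag.ProductsOfCurves` of this team. Otherwise let `N ⊆ ℂ(W)` be the field generated by the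
ratios of the traces. Take a generic point `P` of `W` and a second point `Q` which is generic among
the points with the same image under the map given by the traces (`Q` is the image of `P` under a
generic embedding over `N`). The traces at `P` and `Q` are proportional. This is a relation between
the points of the fibres of `V ⇢ W` over `P` and `Q`, which is multilinear in the values of the
`ω i`. By Riemann-Roch less than `γ i` points of `C i` impose independent conditions on the regular
differentials, so one can fix the coordinates, as in the proof of the quoted result. We come to the
points of the two fibres which have the same coordinates as a given point over `P`, in all curves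
or in all except one. If there are such points over `Q`, then all coordinates of the given point
except at most one are algebraic over `N` by the choice of `Q`, so `κ(W) ≥ n`: the traces of forms
give `n` algebraically independent ratios of canonical forms. If there are no such points over `Q`,
then there is a linear relation for the points over `P` alone: the differentials on the fibres of
`V ⇢ ∏ j ≠ i, C j` have trace zero on the images in `W × ∏ j ≠ i, C j`, these images are rational
curves, and `W` is uniruled.
-/

set_option autoImplicit false
set_option linter.overlappingInstances false
set_option maxHeartbeats 4000000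
set_option synthInstance.maxHeartbeats 400000

open FF Module Pool.Agent Pool.Agent.W602.GT
open Pool.Agent.W619.PQ (IsUniruled)

namespace Pool.Agent.Results.MP_813db1_ag.CurveProductsDichotomy

/-- The number `γ` is at most the gonality of the curve with the function field `F`: all nonconstant
rational functions on the curve have degree at least `γ`. -/
def LeGonality (γ : ℕ) (F : Type) [Field F] [Algebra ℂ F] : Prop :=
  ∀ y : F, Transcendental ℂ y → γ ≤ finrank (IntermediateField.adjoin ℂ {y}) F

variable {K : Type} [Field K] [Algebra ℂ K] {n : ℕ}

/-- The function field of the image `W_s` of `V` in the product of `W` and the first `s` curves. Here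
`K` and `L` are the function fields of `V` and `W`, and `F i` is the one of the `i`-th curve. -/
noncomputable def Img (F : Fin n → IntermediateField ℂ K) (L : Type) [Field L] [Algebra L K]
    (s : ℕ) : IntermediateField L K :=
  IntermediateField.adjoin L {z | ∃ l : Fin n, l.val < s ∧ z ∈ F l}

/-- The degree over `W_s` of the image of `V` in the product of `W_s` and the `i`-th curve. -/
noncomputable def deg (F : Fin n → IntermediateField ℂ K) (L : Type) [Field L] [Algebra L K]
    (s : ℕ) (i : Fin n) : ℕ :=
  finrank (Img F L s) (IntermediateField.adjoin (Img F L s) (F i : Set K))

/-- **Abundance for varieties dominated by products of curves.** Let `K` be the function field of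
a product `V` of `n + 1` curves, i.e. `K` is the compositum of the function fields `F i` of the
curves and has transcendence degree `n + 1`, let `γ i` be at most the gonality of the `i`-th curve,
and let `L ⊆ K` be the function field of a variety `W` such that the extension is finite. Suppose that
for all `i < s` (the curves are numbered from `0` to `n`) twice the degree over `W_i` of the image of
`V` in the product of `W_i` and the `i`-th curve is less than `γ i`. Suppose that for any two other
curves with the numbers `i`, `j` twice the degree over `W_s` of the image in the product of `W_s` and
one of these curves is less than the number `γ i` or `γ j` of this curve, or twice the degree of `V`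
over `W_s` is at most `γ i + γ j - 3`. Then `W` is uniruled or `κ(W) ≥ n = dim W - 1`. -/
theorem result [Algebra.EssFiniteType ℂ K] (hK : Algebra.trdeg ℂ K = (n + 1 : ℕ))
    (F : Fin (n + 1) → IntermediateField ℂ K) [∀ i, IsFF ℂ (F i)] (hF : ⨆ i, F i = ⊤)
    {γ : Fin (n + 1) → ℕ} (hγ : ∀ i, LeGonality (γ i) (F i)) (L : Type) [Field L] [Algebra ℂ L]
    [Algebra L K] [IsScalarTower ℂ L K] [FiniteDimensional L K] (s : ℕ)
    (hs : ∀ i : Fin (n + 1), i.val < s → 2 * deg F L i i < γ i)
    (hpair : ∀ i j : Fin (n + 1), s ≤ i.val → s ≤ j.val → i ≠ j →
      2 * deg F L s i < γ i ∨ 2 * deg F L s j < γ j ∨
        2 * finrank (Img F L s) K + 3 ≤ γ i + γ j) :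
    IsUniruled ℂ L (n + 1) ∨ KodGe ℂ L (n + 1) (fun _ => False) n := by
  classical
  have hImg : ∀ s, Img F L s = N145.PC.MF F L (N145.PC.Js (n + 1) s) := by
    intro s
    unfold Img N145.PC.MF N145.PC.MJ
    congr 1
    ext z
    simp only [Set.mem_ofPred_eq, Set.mem_iUnion, N145.PC.mem_Js, Set.mem_range, exists_prop]
    constructor
    · rintro ⟨l, hl, hz⟩
      exact ⟨l, hl, ⟨z, hz⟩, rfl⟩
    · rintro ⟨l, hl, z, rfl⟩
      exact ⟨l, hl, z.2⟩
  have hdeg : ∀ s i, deg F L s i = finrank (N145.PC.MF F L (N145.PC.Js (n + 1) s))
      (IntermediateField.adjoin (N145.PC.MF F L (N145.PC.Js (n + 1) s)) (F i : Set K)) := by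
    intro s i
    unfold deg
    rw [hImg]
  refine N145.PC.dichotomy hF hK hγ (s := s) (fun l hl => by rw [← hdeg]; exact hs l hl)
    (fun i j hi hj hij => ?_)
  rw [← hdeg, ← hdeg, ← hImg]
  exact hpair i j hi hj hij

end Pool.Agent.Results.MP_813db1_ag.CurveProductsDichotomy
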