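import Pool.Agent.N145.PC.Str4

/-!
# Abundance for klt pairs on varieties dominated by products of curves

Let `V = C 0 × ... × C n` be a product of `n + 1` smooth projective curves over `ℂ`. For `i < n` let
`γ i` be the gonality of `C i` (or a smaller number): every nonconstant rational function on `C i` has
degree at least `γ i`. The last curve `C n` is arbitrary, e.g. rational or elliptic.

Let `V ⇢ W` be a dominant rational map of finite degree to any projective variety `W`. It need not be
related to the curves. Let `W_s` be the image of `V` in `W × C 0 × ... × C (s - 1)`, and let `d s i`
be the degree over `W_s` of the image of `V` in `W_s × C i`. Then `W_0 = W`, and `d s i` is at most the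
number `d 0 i ≤ deg(V ⇢ W)` of different points of `C i` below a general fibre of `V ⇢ W`.

Suppose that `2 d i i < γ i` for all `i < n` (e.g. `2 deg(V ⇢ W) < γ i` for all `i < n`). Then

* `κ(W) ≥ n = dim W - 1`, or
* there is a fibration `W ⇢ Z` over a variety `Z` of general type with `dim Z = n` such that the
  general fibre is a rational curve (a conic bundle).

This determines all klt pairs on the birational models of `W`. Let `(X, Δ)` be a klt pair such that
`X` is birational to `W` and `K_X + Δ` is nef (or pseudo-effective). In the first case
`κ(K_X + Δ) ≥ κ(W) ≥ dim X - 1`. In the second case `K_X + Δ` is effective on the general fibre, a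
rational curve, of a resolution of `X ⇢ Z`, and `Z` is of general type, so
`κ(K_X + Δ) ≥ dim Z = dim X - 1` (additivity of the Kodaira dimension of pairs over a base of general
type: Viehweg, Kawamata, Campana). By Lai's theorem for pairs (Birkar-Cascini-Hacon-McKernan, Lai,
Gongyo-Lehmann), `(X, Δ)` has a good minimal model: the general fibre of its Iitaka fibration has
dimension at most one. So if `K_X + Δ` is nef then it is semiample: the conjecture holds for all klt
pairs on all birational models of these varieties `W`, of any dimension, whether or not `W` is
uniruled.

(The theorem was first on the page `MP_badc2d_ag`, where it was replaced by `ProductWithCurveKlt`, on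
varieties dominated by a product `X × C` with a variety `X` whose canonical forms separate points. That
theorem contains the present one if `2 d' < γ i` for all `i < n`, where `d'` is the degree over `W` of
the image of `V` in the product of `W` and the first `n` curves, but not for the single degrees used
here.)

Proof. Let `ω i` be regular differentials on the `C i`. The traces on `W` of the products of their
pullbacks are regular. If some trace does not vanish, let `N ⊆ ℂ(W)` be the field generated by the
ratios of the traces. Take a generic point `P` of `W` and a second point `Q` which is the image of
`P` under a generic embedding over `N`. The traces at `P` and `Q` are proportional. This is a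
multilinear relation in the values of the `ω i` at the points of the two fibres of `V ⇢ W`. By
Riemann-Roch less than `γ i` points of `C i` impose independent conditions on the regular
differentials, so one can fix the first `n` coordinates one after the other. We come to the points of
the two fibres with the same first `n` coordinates as a given point over `P`. If there is such a point
over `Q` then the first `n` coordinates of the given point are algebraic over `N`, and `κ(W) ≥ n`. If
there is none, or if all traces vanish, then all regular differentials on the fibre of
`V ⇢ C 0 × ... × C (n - 1)` have trace zero on the image of this fibre in `W × C 0 × ... × C (n-1)`.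
So this image is a rational curve, and `W` is covered by the images `R_c` of these rational curves,
for `c` in `C 0 × ... × C (n - 1)`.

Now the curve `R_c` is parametrized by a rational function `s`, over the algebraic closure `E` of the
field of `C 0 × ... × C (n - 1)`. We show that all coordinates on `C 0, ..., C (n - 1)` of the points
in the fibre of `V ⇢ W` over a point of `R_c` are constant, i.e. do not depend on `s`: a coordinate in
`C i` which moves with `s` gives a nonconstant map to `C i` from a curve which is a covering of `ℙ¹` of
degree at most `d i i < γ i`, and such maps do not exist since the gonality does not rise under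
nonconstant maps (this is done for the first coordinate, then for the second one over the image `W_1`,
and so on). So a general fibre of `V ⇢ W` over a point of `R_c` has the same first `n` coordinates for
all points of `R_c`, so that the curves `R_c` are the fibres of a map `W ⇢ Z`; the function field of
`Z` is the intersection of `ℂ(W)` and `E`. The variety `Z` is dominated by `C 0 × ... × C (n - 1)` and
the degrees for this map `C 0 × ... × C (n - 1) ⇢ Z` are at most the ones for `V ⇢ W`. The first part
for `Z` in the place of `W` gives that `Z` is of general type: all the traces from
`C 0 × ... × C (n - 1)` to `Z` are compared at two points as above, and now all coordinates are fixed.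
-/

set_option autoImplicit false
set_option linter.overlappingInstances false
set_option maxHeartbeats 4000000
set_option synthInstance.maxHeartbeats 400000

open FF Module Pool.Agent Pool.Agent.W602.GT

namespace Pool.Agent.Results.MP_9a2ae6_ag.CurveProductsKlt

/-- The number `γ` is at most the gonality of the curve with the function field `F`: all nonconstant
rational functions on the curve have degree at least `γ`. -/
def LeGonality (γ : ℕ) (F : Type) [Field F] [Algebra ℂ F] : Prop :=
  ∀ y : F, Transcendental ℂ y → γ ≤ finrank (IntermediateField.adjoin ℂ {y}) F

variable {K : Type} [Field K] [Algebra ℂ K] {n : ℕ}

/-- The function field of the image `W_s` of `V` in the product of `W` and the first `s` curves. Here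
`K` and `L` are the function fields of `V` and `W`, and `F i` is the one of the `i`-th curve. -/
noncomputable def Img (F : Fin n → IntermediateField ℂ K) (L : Type) [Field L] [Algebra L K]
    (s : ℕ) : IntermediateField L K :=
  IntermediateField.adjoin L {z | ∃ l : Fin n, l.val < s ∧ z ∈ F l}

/-- The degree over `W_s` of the image of `V` in the product of `W_s` and the `i`-th curve. -/
noncomputable def deg (F : Fin n → IntermediateField ℂ K) (L : Type) [Field L] [Algebra L K]
    (s : ℕ) (i : Fin n) : ℕ :=
  finrank (Img F L s) (IntermediateField.adjoin (Img F L s) (F i : Set K))

/-- There is a fibration `W ⇢ Z`, with `Z` of general type and of dimension `n`, whose generic fibre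
is a geometrically rational curve. In terms of the function field `L` of `W`: there is a subfield
`N` (the function field of `Z`), algebraically closed in `L` and of transcendence degree `n`, such that
`Z` is of general type, and over an algebraic extension `M` of `N` there is an embedding over `N` of
`L` into the field of rational functions `M(t)`. -/
def IsConicBundleOverGeneralType (L : Type) [Field L] [Algebra ℂ L] (n : ℕ) : Prop :=
  ∃ N : IntermediateField ℂ L, (∀ z : L, IsAlgebraic N z → z ∈ N) ∧ Algebra.trdeg ℂ N = n ∧
    KodGe ℂ N n (fun _ => False) n ∧ ∃ (M : Type) (_ : Field M) (_ : Algebra N M),
      Algebra.IsAlgebraic N M ∧ Nonempty (L →ₐ[N] RatFunc M)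

/-- **The structure of varieties dominated by products of curves.** Let `K` be the function field of
a product `V` of `n + 1` curves, i.e. `K` is the compositum of the function fields `F i` of the
curves and has transcendence degree `n + 1`. Let `L ⊆ K` be the function field of a variety `W` such
that the extension is finite. For `i < n` (the curves are numbered from `0` to `n`) let `γ i` be at
most the gonality of the `i`-th curve, and suppose that twice the degree over `W_i` of the image of `V`
in the product of `W_i` and the `i`-th curve is less than `γ i`. There is no condition on the last
curve. Then `κ(W) ≥ n = dim W - 1`, or `W` has a fibration over a variety of general type of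
dimension `n` with geometrically rational generic fibre. -/
theorem result [Algebra.EssFiniteType ℂ K] (hK : Algebra.trdeg ℂ K = (n + 1 : ℕ))
    (F : Fin (n + 1) → IntermediateField ℂ K) [∀ i, IsFF ℂ (F i)] (hF : ⨆ i, F i = ⊤)
    (γ : Fin n → ℕ) (hγ : ∀ i : Fin n, LeGonality (γ i) (F i.castSucc)) (L : Type) [Field L]
    [Algebra ℂ L] [Algebra L K] [IsScalarTower ℂ L K] [FiniteDimensional L K]
    (hs : ∀ i : Fin n, 2 * deg F L i i.castSucc < γ i) :
    KodGe ℂ L (n + 1) (fun _ => False) n ∨ IsConicBundleOverGeneralType L n := by
  classical
  have hImg : ∀ s, Img F L s = N145.PC.MF F L (N145.PC.Js (n + 1) s) := by
    intro s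
    unfold Img N145.PC.MF N145.PC.MJ
    congr 1
    ext z
    simp only [Set.mem_ofPred_eq, Set.mem_iUnion, N145.PC.mem_Js, Set.mem_range, exists_prop]
    constructor
    · rintro ⟨l, hl, hz⟩
      exact ⟨l, hl, ⟨z, hz⟩, rfl⟩
    · rintro ⟨l, hl, z, rfl⟩
      exact ⟨l, hl, z.2⟩
  have hdeg : ∀ s i, deg F L s i = finrank (N145.PC.MF F L (N145.PC.Js (n + 1) s))
      (IntermediateField.adjoin (N145.PC.MF F L (N145.PC.Js (n + 1) s)) (F i : Set K)) := by
    intro s i
    unfold deg
    rw [hImg]
  obtain ⟨g, hg⟩ : ∃ g : Fin (n + 1) → ℕ, ∀ i : Fin (n + 1),
      g i = if h : i.val < n then γ ⟨i.val, h⟩ else 0 := ⟨_, fun _ => rfl⟩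
  refine N145.PC.structure_thm (g := g) hF hK (fun i y hy => ?_) (fun l hl => ?_)
  · rw [hg i]
    split_ifs with h
    · exact hγ ⟨i.val, h⟩ y hy
    · exact Nat.zero_le _
  · rw [← hdeg, hg l, dif_pos hl]
    exact hs ⟨l.val, hl⟩

end Pool.Agent.Results.MP_9a2ae6_ag.CurveProductsKlt
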