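import Pool.Agent.N145.SX.All

/-!
# Nonvanishing for log pairs dominated by the product of a variety and an open curve

Let `X°` be a smooth variety over `ℂ` of dimension `m`, and `U = C ∖ B` a smooth curve, open or
projective and of any genus (`B` is finite and may be empty). Let `V° = X° × U ⇢ W°` be a dominant
rational map of finite degree to a variety `W°` which is proper in the sense that a prime divisor over
`V°` (on any compactification of any birational model) has a centre on `V°` if and only if its image
has a centre on `W°`; for example any finite morphism onto a normal variety `W°`. The map need not
be related to the product structure, and it need not be the quotient by a group. Let `d` be the number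
of different points of `X` below a general fibre of `V° ⇢ W°`, i.e. the degree over `W` of the image
of `V` in `W × X`; it is at most the degree of `V° ⇢ W°`.

Suppose that the logarithmic canonical forms of `X°` separate `2 d` general points: any `2 d`
different points in a nonempty open subset of `X°` impose independent conditions on
`H⁰(K_X + D)`, where `X` is a smooth compactification with the boundary `D`. For example:

* `X°` is the complement of a divisor with normal crossings of degree `e` in a smooth hypersurface of
  degree `c` in projective space, `c + e ≥ m + 1 + 2 d` (also `c = 1` or `e = 0`);
* `X°` is a product of curves of logarithmic gonality greater than `2 d`.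

The theorem:

* `W°` is `A¹`-uniruled, or its logarithmic Kodaira dimension is at least `m = dim W° - 1`;
* the log canonical divisor of a smooth compactification of a resolution of `W°` is pseudo-effective
  if and only if its Kodaira dimension is at least `dim W° - 1`, and if and only if `W°` is not
  `A¹`-uniruled.

The number `2 d` is optimal already if `m = 1` and there is no boundary: let `X → E` be a general
covering of degree `d` and of large genus of an elliptic curve. Its gonality is `2 d`
(Castelnuovo-Severi), so its canonical forms separate `2 d - 1` points, and `W = E × C` for an elliptic
curve `C` has `κ(W) = 0`.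

There is no condition on the irregularity (the theorem of the team for products of open curves,
`OpenCurveProducts`, is about varieties with many logarithmic one-forms). Let `(Y, D)` be a log
canonical pair with `D` reduced such that `Y ∖ D` has canonical singularities (for example, is smooth)
and is such a `W°`, or properly birational to it. If `K_Y + D` is nef then the first statement of the
list holds: on a log resolution `K_Z + D_Z` is the pullback of `K_Y + D` plus an effective divisor.
The forms on `Z` give sections of multiples of `K_Y + D`, so `κ(Y, K_Y + D) ≥ dim Y - 1`.

Proof. Let `f` be a logarithmic canonical form of `X°` and `φ` a differential on `C` with at most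
simple poles on `B`. The trace on `W°` of the product of their pullbacks is a logarithmic canonical
form. If some trace does not vanish, let `N ⊆ ℂ(W)` be the field generated by the ratios of the
traces. Take a generic point `P` of `W` and a second point `Q`, the image of `P` under a generic
embedding over `N`. The traces at `P` and `Q` are proportional. This is a relation between the values
of `f` at the at most `2 d` points of `X` below `P` and `Q`. As these points are separated, the
coefficients vanish: if a point `x` below `P` is not below `Q`, then all `φ` have trace zero on the
points of the fibre over `P` with first coordinate `x`, i.e. on the image `R_x` of `{x} × U` in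
`W × X`. Otherwise `x` is algebraic over `N`, and the Kodaira dimension is at least `m`. Suppose that
all `φ` have trace zero on `R_x`, for generic `x`. By base change all logarithmic differentials of
the geometric generic fibre have trace zero. So `R_x` is rational, and has at most one point below the
boundary: otherwise the pullback of a differential of the third kind with poles at two of these points
would be a logarithmic differential with nonzero trace. Hence `W°` is covered by images of the affine
line.

The parts of the Lean proof on pull-backs, products and the geometric generic fibre are due to
helpers 123, 221, 279, 603, 342, 75 and 78.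
-/

set_option autoImplicit false
set_option linter.overlappingInstances false
set_option maxHeartbeats 4000000
set_option synthInstance.maxHeartbeats 400000

open FF Module Pool.Agent Pool.Agent.W602.GT
open Pool.Agent.W619.PL (IsA1Uniruled)

namespace Pool.Agent.Results.MP_bc213e_ag.OpenProductWithCurve

/-- **The logarithmic canonical forms separate `r` general points.** `E` is the function field of a
variety `X°` of dimension `m`, `BX` is the set of places of `E` without centre on `X°`, and `D` is a
rational frame of the tangent bundle. The embeddings `σ : E → Ω` are the generic points of `X` with
coordinates in the field `Ω`. At most `r` different such points impose independent conditions on the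
logarithmic canonical forms `ω` (`LogSec` with exponent one): if `∑ c σ * σ (ω D) = 0` for all `ω`
then all the coefficients `c σ` are zero. -/
def SeparatesPoints (E : Type) [Field E] [Algebra ℂ E] (m : ℕ) (BX : Place ℂ E → Prop) (r : ℕ) :
    Prop :=
  ∀ D : Fin m → Derivation ℂ E E, LinearIndependent E D →
    ∀ (Ω : Type) [Field Ω] [Algebra ℂ Ω] [IsAlgClosed Ω] (A : Finset (E →ₐ[ℂ] Ω)), A.card ≤ r →
    ∀ c : (E →ₐ[ℂ] Ω) → Ω,
    (∀ ω : (Fin m → Derivation ℂ E E) → E, LogSec ℂ E m 1 BX ω →
      ∑ σ ∈ A, c σ * σ (ω D) = 0) → ∀ σ ∈ A, c σ = 0

variable {K : Type} [Field K] [Algebra ℂ K]

/-- The place `Q` of the function field `K` of `X × C` lies over a place of `E` without centre on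
`X°`, or over a point in `B`: it has no centre on `X° × U`. -/
def Boundary {E C : IntermediateField ℂ K} (BX : Place ℂ E → Prop) (B : Set (Place ℂ C))
    (Q : Place ℂ K) : Prop :=
  (∃ (P : Place ℂ E) (e : ℕ), BX P ∧ 0 < e ∧ ∀ f : E, Q.ord (f : K) = e * P.ord f) ∨
    ∃ p ∈ B, ∃ e : ℕ, 0 < e ∧ ∀ f : C, Q.ord (f : K) = e * p.ord f

/-- The set `BW` of places of the function field `L` of `W` is the boundary of the image of `X° × U`:
for all places `Q` of `K` over a place `P` of `L`, `P` is in `BW` if and only if `Q` has no centre
on `X° × U`. -/
def IsImageBoundary {E C : IntermediateField ℂ K} (BX : Place ℂ E → Prop) (B : Set (Place ℂ C))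
    (L : Type) [Field L] [Algebra ℂ L] [Algebra L K] (BW : Place ℂ L → Prop) : Prop :=
  ∀ (P : Place ℂ L) (Q : Place ℂ K) (e : ℕ), 0 < e →
    (∀ f : L, Q.ord (algebraMap L K f) = e * P.ord f) → (BW P ↔ Boundary BX B Q)

/-- **Nonvanishing for log pairs dominated by the product of a variety and an open curve.** Let `K` be
the function field of `X × C`, i.e. the compositum of the function fields `E` of the variety `X` of
dimension `m` and `C` of the curve, of transcendence degree `m + 1`. Let `X°` be an open variety with
function field `E` and boundary `BX` (the places of `E` without centre on `X°`), and let `B` be a
finite set of points of the curve. Let `L ⊆ K` be the function field of a variety `W` such that the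
extension is finite, and let `W°` be an open variety with function field `L` and boundary `BW` which
is the image of the product of `X°` and the open curve under a proper map. Let `d` be the degree over
`W` of the image of `X × C` in `W × X`. If the logarithmic canonical forms of `X°` separate `2 d`
general points, then the following are equivalent: the log canonical divisor of `W°` is
pseudo-effective; `κ(W°) ≥ m = dim W° - 1` for the logarithmic Kodaira dimension; `W°` is not
`A¹`-uniruled. -/
theorem result [Algebra.EssFiniteType ℂ K] (m : ℕ) (E C : IntermediateField ℂ K)
    [Algebra.EssFiniteType ℂ E] [IsFF ℂ C] (hEC : E ⊔ C = ⊤) (hE : Algebra.trdeg ℂ E = m)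
    (hK : Algebra.trdeg ℂ K = (m + 1 : ℕ)) (BX : Place ℂ E → Prop) (B : Set (Place ℂ C))
    (hB : B.Finite) (L : Type) [Field L] [Algebra ℂ L] [Algebra L K] [IsScalarTower ℂ L K]
    [FiniteDimensional L K] (BW : Place ℂ L → Prop) (hBW : IsImageBoundary BX B L BW)
    (hX : SeparatesPoints E m BX (2 * finrank L (IntermediateField.adjoin L (E : Set K)))) :
    [Psef ℂ L (m + 1) BW, KodGe ℂ L (m + 1) BW m, ¬ IsA1Uniruled ℂ L (m + 1) BW].TFAE := by
  obtain ⟨x, D, hx, hD⟩ := Pool.Agent.Y172.exists_crd hE
  refine N145.SX.dichotomy_all hEC hE hK hx (BX := BX) hB (BL := BW) (fun P Q e h => ?_)
    (N145.SX.sepX_of hx hD fun Ω _ _ _ A hA c hc => hX D (N145.SX.dual_indep hD) Ω A hA c hc)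
    (Nat.lt_succ_self _)
  rw [hBW P Q e h.1 h.2]
  rfl

end Pool.Agent.Results.MP_bc213e_ag.OpenProductWithCurve
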