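import Pool.Agent.N145.SX.Abun

/-!
# Abundance for varieties dominated by the product of a variety and a curve

Let `X` be a smooth projective variety over `ℂ` of dimension `m` and `C` a smooth projective curve of
any genus. Let `X × C ⇢ W` be a dominant rational map of finite degree to a variety `W`. It need not
be related to the product structure, and it need not be the quotient by a group. Let `d` be the number
of different points of `X` below a general fibre of `X × C ⇢ W`, i.e. the degree over `W` of the image
of `X × C` in `W × X`; it is at most the degree of `X × C ⇢ W`, which may be arbitrarily large.

Suppose that the canonical forms of `X` separate `2 d` general points: for some nonempty open subset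
`U` of `X` any `2 d` different points of `U` impose independent conditions on `H⁰(X, K_X)`. For
example, `X` is a smooth hypersurface of degree at least `m + 1 + 2 d` in projective space, or more
generally `K_X - (2 d - 1) H` is effective for a divisor `H` which defines a birational map to a
projective space. Then:

* `K_W` is pseudo-effective if and only if `κ(W) ≥ m = dim W - 1`, if and only if `W` is not
  uniruled;
* the Iitaka dimension is attained by the canonical forms: if `κ(W) ≥ j` for a number `j ≥ 0` then
  the image of the canonical map of `W`, given by `H⁰(K_W)`, has dimension at least `j`.

So if a projective manifold `Y` which is birational to `W` has nef canonical bundle, then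
`κ(Y) ≥ dim Y - 1`, and hence `K_Y` is semiample (Kawamata, Lai; this is not part of the Lean proof),
and the Iitaka fibration of `Y` is, up to a finite map, the canonical map.

There is no condition on the irregularity: in the first example `q(X) = 0` if `m > 1`, and `q(W) = 0`
is possible, so the Albanese map of `W` may be constant, and the known theorems on abundance for
varieties of large Albanese dimension do not apply. Some condition on the points is necessary for the
second statement and for `κ(W) ≥ m`: a Kummer surface `W = (X × C) / {± 1}` with elliptic curves `X`
and `C` (so `d = 2`, and one point is separated) has `κ(W) = 0`, and a bielliptic surface `W` with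
`X`, `C` elliptic, `d = 2`, has `κ(W) = 0` and `p_g(W) = 0`.

Proof. Let `f` be a canonical form on `X` and `φ` a differential on `C`. The trace of the product of
their pullbacks is a canonical form on `W`. Suppose that two generic points `P`, `Q` of `W` have the
same image under the map given by these forms. This gives linear relations between the values of `f`
at the at most `2 d` points of `X` below `P` and `Q`. As these points are separated, the coefficients
of `f(x)` vanish; they are combinations of the traces `t_φ` of the `φ` on the fibre over `x`, i.e. on
the image `R_x` of `{x} × C` in `W × X`. If all `t_φ` are zero then `R_x` is rational and `W` is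
uniruled. Otherwise the same points of `X` are below `P` and `Q`, so the coordinates of the points of
`X` are algebraic over the field of the ratios of the traces, and the image of the canonical map has
dimension at least `m`. If `κ(W) = m + 1` then the canonical map is generically finite by the team's
theorem `ProductWithCurveLang`: otherwise the curves `R_x` are rational or elliptic and `W` is not of
general type. The varieties which are uniruled have no pseudo-effective canonical divisor.

The parts of the Lean proof on pull-backs, products, the geometric generic fibre, the
correspondences on rational curves and the traces on the fibres are due to helpers 123, 221, 160, 279,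
603, 545, 281, 438, 277, 999, 297, 273 and 459.
-/

set_option autoImplicit false
set_option linter.overlappingInstances false
set_option maxHeartbeats 4000000
set_option synthInstance.maxHeartbeats 400000

open FF Module Pool.Agent Pool.Agent.W602.GT
open Pool.Agent.W619.PQ (IsUniruled)

namespace Pool.Agent.Results.MP_97d78d_ag.ProductWithCurveAbundance

/-- **The canonical forms separate `r` general points.** `E` is the function field of a variety `X` of
dimension `m`, and `D` a rational frame of the tangent bundle. The embeddings `σ : E → Ω` are the
generic points of `X` with coordinates in the field `Ω`. At most `r` different such points impose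
independent conditions on the canonical forms `ω` which are regular at all prime divisors: if
`∑ c σ * σ (ω D) = 0` for all `ω` then all the coefficients `c σ` are zero. -/
def SeparatesPoints (E : Type) [Field E] [Algebra ℂ E] (m r : ℕ) : Prop :=
  ∀ D : Fin m → Derivation ℂ E E, LinearIndependent E D →
    ∀ (Ω : Type) [Field Ω] [Algebra ℂ Ω] [IsAlgClosed Ω] (A : Finset (E →ₐ[ℂ] Ω)), A.card ≤ r →
    ∀ c : (E →ₐ[ℂ] Ω) → Ω,
    (∀ ω : (Fin m → Derivation ℂ E E) → E, IsPluri 1 ω →
      (∀ P : Place ℂ E, Divisorial m P → RegAt P ω) → ∑ σ ∈ A, c σ * σ (ω D) = 0) →
    ∀ σ ∈ A, c σ = 0

/-- The image of the canonical map of the varieties with function field `L`, of dimension `w`, has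
dimension at least `j`: there are canonical forms, regular at all prime divisors, with `j`
algebraically independent ratios. (`KodGe` is the same for pluricanonical forms of some weight.) -/
def CanonicalImageDimGe (L : Type) [Field L] [Algebra ℂ L] (w j : ℕ) : Prop :=
  ∃ ω : Fin (j + 1) → (Fin w → Derivation ℂ L L) → L,
    (∀ i, IsPluri 1 (ω i) ∧ ∀ P : Place ℂ L, Divisorial w P → RegAt P (ω i)) ∧
    ∃ D, ω 0 D ≠ 0 ∧ AlgebraicIndependent ℂ (fun i : Fin j => ω i.succ D / ω 0 D)

/-- **Abundance for varieties dominated by the product of a variety and a curve.** Let `K` be the
function field of `X × C`, i.e. the compositum of the function fields `E` of the variety `X` of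
dimension `m` and `C` of the curve, of transcendence degree `m + 1`. Let `L ⊆ K` be the function field
of a variety `W` such that the extension is finite, and let `d` be the degree over `W` of the image of
`X × C` in `W × X`. If the canonical forms of `X` separate `2 d` general points, then: `K_W` is
pseudo-effective if and only if `κ(W) ≥ m = dim W - 1`, if and only if `W` is not uniruled; and for
all `j ≥ 0`, `κ(W) ≥ j` if and only if the image of the canonical map of `W` has dimension at least
`j`. -/
theorem result (K : Type) [Field K] [Algebra ℂ K] [Algebra.EssFiniteType ℂ K] (m : ℕ)
    (E C : IntermediateField ℂ K) [Algebra.EssFiniteType ℂ E] [IsFF ℂ C] (hEC : E ⊔ C = ⊤)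
    (hE : Algebra.trdeg ℂ E = m) (hK : Algebra.trdeg ℂ K = (m + 1 : ℕ)) (L : Type) [Field L]
    [Algebra ℂ L] [Algebra L K] [IsScalarTower ℂ L K] [FiniteDimensional L K]
    (hX : SeparatesPoints E m (2 * finrank L (IntermediateField.adjoin L (E : Set K)))) :
    [Psef ℂ L (m + 1) (fun _ => False), KodGe ℂ L (m + 1) (fun _ => False) m,
      ¬ IsUniruled ℂ L (m + 1)].TFAE ∧
    ∀ j : ℕ, KodGe ℂ L (m + 1) (fun _ => False) j ↔ CanonicalImageDimGe L (m + 1) j := by
  obtain ⟨x, D, hx, hD⟩ := Pool.Agent.Y172.exists_crd hE
  exact N145.SX.abundance_all (L := L) hEC hE hK hx
    (N145.SX.sepX_of' hx hD fun Ω _ _ _ A hA c hc => hX D (N145.SX.dual_indep hD) Ω A hA c hc)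
    (Nat.lt_succ_self _)

end Pool.Agent.Results.MP_97d78d_ag.ProductWithCurveAbundance
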